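import Pool.Agent.helper17.LQ.SpecQ
import Pool.Agent.helper78.LP.OSI

/-!
# MP_07c750 (quantum unique ergodicity), PROJECT LQ: row QOS (the oscillatory integral on intervals)
-/

open MeasureTheory Set

set_option autoImplicit false

namespace Pool.Agent.LP

noncomputable section

/-- the integrand -/
def QOS_f (X t X' t' u : ℝ) : ℂ := ee (t * mm X u - t' * mm X' u) * ((md X u * md X' u : ℝ) : ℂ)

theorem QOS_fb {X X' u : ℝ} (hX : |X| ≤ 1 / 16) (hX' : |X'| ≤ 1 / 16) (t t' : ℝ) (hu : u ∈ Icc (-2 : ℝ) 2) : ‖QOS_f X t X' t' u‖ ≤ 7 / 4 := by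
  unfold QOS_f
  rw [norm_mul, OSI_ee, one_mul, Complex.norm_real, Real.norm_eq_abs, OSI_md, OSI_md]
  obtain ⟨a1, a2⟩ := OSI_wb hX hu
  obtain ⟨b1, b2⟩ := OSI_wb hX' hu
  rw [abs_of_nonneg (by positivity)]
  have h3 : OSI_w X u ^ 2 ≤ (8 / 7) ^ 2 := pow_le_pow_left₀ (by linarith) a2 2
  have h4 : OSI_w X' u ^ 2 ≤ (8 / 7) ^ 2 := pow_le_pow_left₀ (by linarith) b2 2
  refine (mul_le_mul h3 h4 (by positivity) (by positivity)).trans ?_
  norm_num

theorem QOS_fc {X X' : ℝ} (hX : |X| ≤ 1 / 16) (hX' : |X'| ≤ 1 / 16) (t t' : ℝ) : ContinuousOn (QOS_f X t X' t') (Icc (-2 : ℝ) 2) := by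
  have e : QOS_f X t X' t' = fun u => ee (t * (u * OSI_w X u) - t' * (u * OSI_w X' u)) * ((OSI_w X u ^ 2 * OSI_w X' u ^ 2 : ℝ) : ℂ) := by
    funext u
    unfold QOS_f
    rw [OSI_md, OSI_md]
    unfold mm OSI_w
    rw [div_eq_mul_inv, div_eq_mul_inv]
  rw [e]
  have h1 := OSI_wc hX
  have h2 := OSI_wc hX'
  have h3 : Continuous ee := by unfold ee; fun_prop
  refine ContinuousOn.mul (h3.comp_continuousOn (by fun_prop)) (Complex.continuous_ofReal.comp_continuousOn (by fun_prop))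

theorem QOS_one {X X' x y : ℝ} (hX : |X| ≤ 1 / 16) (hX' : |X'| ≤ 1 / 16) (t t' : ℝ) (hx : -2 ≤ x) (hxy : x ≤ y) (hy : y ≤ 2) :
    ‖ipj X t X' t' x y‖ ≤ 7 / 4 * (y - x) := by
  have h1 : ∀ u ∈ Icc x y, ‖QOS_f X t X' t' u‖ ≤ 7 / 4 := fun u hu => QOS_fb hX hX' t t' ⟨hx.trans hu.1, hu.2.trans hy⟩
  have h2 := norm_setIntegral_le_of_norm_le_const (μ := volume) (by rw [Real.volume_Icc]; exact ENNReal.ofReal_lt_top) h1
  rw [Measure.real, Real.volume_Icc, ENNReal.toReal_ofReal (by linarith)] at h2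
  exact h2

theorem QOS_swap (X t X' t' x y : ℝ) : ‖ipj X t X' t' x y‖ = ‖ipj X' t' X t x y‖ := by
  have h1 : ipj X' t' X t x y = (starRingEnd ℂ) (ipj X t X' t' x y) := by
    unfold ipj
    rw [← integral_conj]
    refine integral_congr_ae (Filter.Eventually.of_forall fun u => ?_)
    simp only [map_mul, OSI_conj, Complex.conj_ofReal]
    rw [neg_sub, mul_comm (md X' u) (md X u)]
  rw [h1, Complex.norm_conj]

theorem QOS_add {X X' x a y : ℝ} (hX : |X| ≤ 1 / 16) (hX' : |X'| ≤ 1 / 16) (t t' : ℝ) (hx : -2 ≤ x) (hxa : x ≤ a) (hay : a ≤ y) (hy : y ≤ 2) :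
    ipj X t X' t' x y = ipj X t X' t' x a + ipj X t X' t' a y := by
  have h0 := QOS_fc hX hX' t t'
  have i1 : IntervalIntegrable (QOS_f X t X' t') volume x a :=
    (h0.mono (by rw [uIcc_of_le hxa]; exact Icc_subset_Icc hx (hay.trans hy))).intervalIntegrable
  have i2 : IntervalIntegrable (QOS_f X t X' t') volume a y :=
    (h0.mono (by rw [uIcc_of_le hay]; exact Icc_subset_Icc (hx.trans hxa) hy)).intervalIntegrable
  have h1 := intervalIntegral.integral_add_adjacent_intervals i1 i2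
  rw [intervalIntegral.integral_of_le hxa, intervalIntegral.integral_of_le hay, intervalIntegral.integral_of_le (hxa.trans hay),
    ← integral_Icc_eq_integral_Ioc, ← integral_Icc_eq_integral_Ioc, ← integral_Icc_eq_integral_Ioc] at h1
  exact h1.symm

/-- the third claim, `t' ≤ t` -/
theorem QOS_third {C1 C : ℝ} (hC1 : 1 ≤ C1) (hC : 1 ≤ C) (h : ∀ (t A B : ℝ) (Φ k k' g g' : ℝ → ℝ), 0 < t →
  (∀ u ∈ Icc (-2 : ℝ) 2, HasDerivAt Φ (t * (A + B * u) * k u) u ∧ HasDerivAt k (k' u) u ∧ HasDerivAt g (g' u) u ∧ 1 / 4 ≤ k u ∧ k u ≤ 4 ∧ |k' u| ≤ 4 ∧ |g u| ≤ 4 ∧ |g' u| ≤ 4) →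
  ContinuousOn k' (Icc (-2 : ℝ) 2) → ContinuousOn g' (Icc (-2 : ℝ) 2) →
    (∀ x y L : ℝ, -2 ≤ x → x ≤ y → y ≤ 2 → 0 < L → (∀ u ∈ Icc x y, L ≤ |A + B * u|) → ‖∫ u in Icc x y, ee (Φ u) * (g u : ℂ)‖ ≤ C / (t * L)) ∧
    (B ≠ 0 → ‖∫ u in Icc (-2 : ℝ) 2, ee (Φ u) * (g u : ℂ)‖ ≤ C / Real.sqrt (t * |B|)))
    {X X' t t' T0 N : ℝ} (hX : |X| ≤ 1 / 16) (hX' : |X'| ≤ 1 / 16) (hT0 : 1 ≤ T0) (hTN : T0 ≤ N) (htC : t ≤ C1 * N) (ht' : T0 ≤ t') (htt : t' ≤ t) :
    ∃ u0 : ℝ, ∀ x y : ℝ, -2 ≤ x → x ≤ y → y ≤ 2 → ∀ d : ℝ, 0 < d → (∀ u ∈ Icc x y, d ≤ |u - u0|) →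
      ‖ipj X t X' t' x y‖ * (dR N X t X' t' * d) ≤ (14 + 41 * C1 * C) * (N / T0) := by
  have hT : 0 < T0 := by linarith
  have hN : 0 < N := by linarith
  have ht0 : 0 < t' := by linarith
  have ht : 0 < t := by linarith
  have hM1 : 1 ≤ N / T0 := (one_le_div hT).2 hTN
  have hM0 : 0 < N / T0 := by linarith
  have hCC : 0 < C1 * C := by positivity
  have hCC1 : C ≤ C1 * C := by nlinarith
  obtain ⟨Δ, hΔ⟩ : ∃ Δ, Δ = |X - X'| := ⟨_, rfl⟩
  have hΔ0 : 0 ≤ Δ := by rw [hΔ]; exact abs_nonneg _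
  obtain ⟨ρ, hρ⟩ : ∃ ρ, ρ = Real.sqrt (t' / t) := ⟨_, rfl⟩
  have hρ0 : 0 ≤ ρ := by rw [hρ]; exact Real.sqrt_nonneg _
  have hρ2 : t * ρ ^ 2 = t' := by
    rw [hρ, Real.sq_sqrt (by positivity)]
    field_simp
  have hρ1 : ρ ≤ 1 := by
    rw [hρ]
    exact (Real.sqrt_le_sqrt ((div_le_one ht).2 htt)).trans_eq Real.sqrt_one
  obtain ⟨A, hA⟩ : ∃ A, A = 1 - ρ := ⟨_, rfl⟩
  have hA0 : 0 ≤ A := by linarith
  have hAt : t - t' ≤ 2 * (t * A) := by
    rw [← hρ2, hA]
    nlinarith [mul_nonneg ht.le (mul_nonneg (show 0 ≤ 1 - ρ by linarith) (show 0 ≤ 1 - ρ by linarith))]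
  have hB1 : |ρ * X - X'| ≤ Δ + A / 16 := by
    have e : ρ * X - X' = (X - X') - A * X := by rw [hA]; ring
    rw [e]
    refine (abs_sub _ _).trans ?_
    rw [← hΔ, abs_mul, abs_of_nonneg hA0]
    have := mul_le_mul_of_nonneg_left hX hA0
    linarith
  have hB2 : Δ - A / 16 ≤ |ρ * X - X'| := by
    have e : X - X' = (ρ * X - X') + A * X := by rw [hA]; ring
    have h1 : Δ ≤ |ρ * X - X'| + |A * X| := by
      rw [hΔ, e]
      exact abs_add_le _ _
    rw [abs_mul, abs_of_nonneg hA0] at h1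
    have := mul_le_mul_of_nonneg_left hX hA0
    linarith
  have hM := (h t (1 - ρ) (ρ * X - X') _ _ _ _ _ ht (fun u hu => OSI_eqh (t := t) hX hX' hρ0 hρ1 u hu) (OSI_kc hX hX') (OSI_gc hX hX')).1
  simp only [hρ2] at hM
  rw [← hA] at hM
  have hM' : ∀ x y L : ℝ, -2 ≤ x → x ≤ y → y ≤ 2 → 0 < L → (∀ u ∈ Icc x y, L ≤ |A + (ρ * X - X') * u|) → ‖ipj X t X' t' x y‖ ≤ C / (t * L) := hM
  have hdR : dR N X t X' t' = max 1 (max (N * Δ) (t - t')) := by
    unfold dR
    rw [← hΔ, abs_of_nonneg (show 0 ≤ t - t' by linarith)]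
  rcases le_or_gt (dR N X t X' t') 1 with hd1 | hd1
  · -- `dR = 1`
    have hd2 : dR N X t X' t' = 1 := le_antisymm hd1 (by rw [hdR]; exact le_max_left _ _)
    refine ⟨0, fun x y hx hxy hy d hd hu => ?_⟩
    have h1 := hu x ⟨le_rfl, hxy⟩
    rw [sub_zero] at h1
    have h2 : |x| ≤ 2 := abs_le.2 ⟨hx, hxy.trans hy⟩
    have h3 := QOS_one hX hX' t t' hx hxy hy
    rw [hd2, one_mul]
    have h4 : ‖ipj X t X' t' x y‖ * d ≤ 7 * 2 := mul_le_mul (by linarith) (by linarith) hd.le (by norm_num)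
    have h5 : (14 + 41 * C1 * C) * 1 ≤ (14 + 41 * C1 * C) * (N / T0) := mul_le_mul_of_nonneg_left hM1 (by nlinarith)
    nlinarith
  · have hd2 : dR N X t X' t' ≤ max (N * Δ) (t - t') := by
      rw [hdR] at hd1 ⊢
      rcases le_total 1 (max (N * Δ) (t - t')) with h1 | h1
      · rw [max_eq_right h1]
      · rw [max_eq_left h1] at hd1
        exact absurd hd1 (lt_irrefl _)
    have hd0 : 0 < dR N X t X' t' := by linarith
    rcases le_or_gt (4 * Δ) A with h6 | h6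
    · -- nonstationary
      have hA1 : 0 < A := by
        rcases hA0.eq_or_lt with h7 | h7
        · exfalso
          have h8 : Δ = 0 := by linarith
          have h9 : t - t' ≤ 0 := by rw [← h7] at hAt; linarith
          have h10 : max (N * Δ) (t - t') ≤ 0 := max_le (by rw [h8, mul_zero]) h9
          linarith
        · exact h7
      refine ⟨3, fun x y hx hxy hy d hd hu => ?_⟩
      have h1 := hu x ⟨le_rfl, hxy⟩
      have h2 : |x - 3| ≤ 5 := abs_le.2 ⟨by linarith, by linarith⟩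
      have h3 := hM' x y (3 / 8 * A) hx hxy hy (by positivity) (by
        intro u hu
        have h2 : |(ρ * X - X') * u| ≤ (Δ + A / 16) * 2 := by
          rw [abs_mul]
          exact mul_le_mul hB1 (abs_le.2 ⟨hx.trans hu.1, hu.2.trans hy⟩) (abs_nonneg _) (by positivity)
        have h3 := abs_le.1 h2
        refine le_trans ?_ (le_abs_self _)
        linarith)
      rw [le_div_iff₀ (by positivity)] at h3
      have h4 : dR N X t X' t' ≤ 2 * (t * A) * (N / T0) := by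
        refine hd2.trans (max_le ?_ ?_)
        · have e1 : T0 * (4 * Δ) ≤ t * A := mul_le_mul (by linarith) h6 (by linarith) ht.le
          have e2 : N * Δ = T0 * Δ * (N / T0) := by field_simp
          rw [e2]
          refine mul_le_mul_of_nonneg_right ?_ hM0.le
          nlinarith
        · refine hAt.trans ?_
          exact le_mul_of_one_le_right (by positivity) hM1
      have hn := norm_nonneg (ipj X t X' t' x y)
      have h5 : dR N X t X' t' * d ≤ 2 * (t * A) * (N / T0) * 5 := mul_le_mul h4 (h1.trans h2) hd.le (by positivity)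
      have h7 : ‖ipj X t X' t' x y‖ * (dR N X t X' t' * d) ≤ ‖ipj X t X' t' x y‖ * (2 * (t * A) * (N / T0) * 5) := mul_le_mul_of_nonneg_left h5 hn
      have h8 : ‖ipj X t X' t' x y‖ * (2 * (t * A) * (N / T0) * 5) = 80 / 3 * (‖ipj X t X' t' x y‖ * (t * (3 / 8 * A))) * (N / T0) := by ring
      rw [h8] at h7
      refine h7.trans (mul_le_mul_of_nonneg_right ?_ hM0.le)
      linarith
    · -- the zero of the phase
      have hΔ1 : 0 < Δ := by linarith
      have h7 : 3 / 4 * Δ ≤ |ρ * X - X'| := by linarith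
      have h8 : ρ * X - X' ≠ 0 := by
        intro h9
        rw [h9, abs_zero] at h7
        linarith
      refine ⟨-A / (ρ * X - X'), fun x y hx hxy hy d hd hu => ?_⟩
      have h3 := hM' x y (3 / 4 * Δ * d) hx hxy hy (by positivity) (by
        intro u hu1
        have e : A + (ρ * X - X') * u = (ρ * X - X') * (u - -A / (ρ * X - X')) := by
          rw [mul_sub, mul_div_cancel₀ _ h8]
          ring
        rw [e, abs_mul]
        exact mul_le_mul h7 (hu u hu1) hd.le (abs_nonneg _))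
      rw [le_div_iff₀ (by positivity)] at h3
      have h4 : dR N X t X' t' ≤ 8 * C1 * (N * Δ) := by
        have e0 : 0 ≤ N * Δ := by positivity
        refine hd2.trans (max_le ?_ ?_)
        · nlinarith
        · refine hAt.trans ?_
          have e1 : t * A ≤ C1 * N * (4 * Δ) := mul_le_mul htC h6.le hA0 (by positivity)
          linarith
      have hn := norm_nonneg (ipj X t X' t' x y)
      have h9 : ‖ipj X t X' t' x y‖ * (dR N X t X' t' * d) ≤ ‖ipj X t X' t' x y‖ * (8 * C1 * (N * Δ) * d) :=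
        mul_le_mul_of_nonneg_left (mul_le_mul_of_nonneg_right h4 hd.le) hn
      have h10 : ‖ipj X t X' t' x y‖ * (8 * C1 * (N * Δ) * d) = 32 / 3 * C1 * (‖ipj X t X' t' x y‖ * (T0 * (3 / 4 * Δ * d))) * (N / T0) := by
        field_simp
        ring
      rw [h10] at h9
      refine h9.trans (mul_le_mul_of_nonneg_right ?_ hM0.le)
      have h11 : ‖ipj X t X' t' x y‖ * (T0 * (3 / 4 * Δ * d)) ≤ ‖ipj X t X' t' x y‖ * (t * (3 / 4 * Δ * d)) :=
        mul_le_mul_of_nonneg_left (mul_le_mul_of_nonneg_right (by linarith) (by positivity)) hn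
      have h12 : 32 / 3 * C1 * (‖ipj X t X' t' x y‖ * (T0 * (3 / 4 * Δ * d))) ≤ 32 / 3 * C1 * C :=
        mul_le_mul_of_nonneg_left (h11.trans h3) (by positivity)
      refine h12.trans ?_
      nlinarith

/-- the second claim from the first and the third -/
theorem QOS_second {C u0 N T0 X X' t t' x y : ℝ} (hX : |X| ≤ 1 / 16) (hX' : |X'| ≤ 1 / 16) (hC : 2 ≤ C) (hM : 1 ≤ N / T0) (hx : -2 ≤ x) (hxy : x ≤ y) (hy : y ≤ 2)
    (h : ∀ x y : ℝ, -2 ≤ x → x ≤ y → y ≤ 2 → ∀ d : ℝ, 0 < d → (∀ u ∈ Icc x y, d ≤ |u - u0|) → ‖ipj X t X' t' x y‖ * (dR N X t X' t' * d) ≤ C * (N / T0)) :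
    ‖ipj X t X' t' x y‖ * Real.sqrt (dR N X t X' t') ≤ 4 * C * (N / T0) := by
  have hR : 1 ≤ dR N X t X' t' := le_max_left _ _
  obtain ⟨R, hRe⟩ : ∃ R, R = Real.sqrt (dR N X t X' t') := ⟨_, rfl⟩
  have hR1 : 1 ≤ R := by rw [hRe]; exact Real.one_le_sqrt.2 hR
  have hR2 : dR N X t X' t' = R * R := by rw [hRe, Real.mul_self_sqrt (by linarith)]
  have hR0 : 0 < R := by linarith
  obtain ⟨s, hs⟩ : ∃ s, s = 1 / R := ⟨_, rfl⟩
  have hs0 : 0 < s := by rw [hs]; positivity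
  have hsR : R * s = 1 := by rw [hs]; field_simp
  have h3 : ∀ x y : ℝ, -2 ≤ x → x ≤ y → y ≤ 2 → (∀ u ∈ Icc x y, s ≤ |u - u0|) → ‖ipj X t X' t' x y‖ * R ≤ C * (N / T0) := by
    intro x y hx hxy hy hu
    have h4 := h x y hx hxy hy s hs0 hu
    rw [hR2, mul_assoc, hsR, mul_one] at h4
    exact h4
  have h0 : ∀ x : ℝ, -2 ≤ x → x ≤ 2 → ‖ipj X t X' t' x x‖ * R ≤ C * (N / T0) := by
    intro x hx hx2
    have h4 := QOS_one hX hX' t t' hx le_rfl hx2
    rw [sub_self, mul_zero] at h4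
    have h5 : ‖ipj X t X' t' x x‖ = 0 := le_antisymm h4 (norm_nonneg _)
    rw [h5, zero_mul]
    positivity
  obtain ⟨a, ha⟩ : ∃ a, a = max x (min y (u0 - s)) := ⟨_, rfl⟩
  obtain ⟨b, hb⟩ : ∃ b, b = max x (min y (u0 + s)) := ⟨_, rfl⟩
  have hxa : x ≤ a := by rw [ha]; exact le_max_left _ _
  have hab : a ≤ b := by
    rw [ha, hb]
    exact max_le_max le_rfl (min_le_min le_rfl (by linarith))
  have hby : b ≤ y := by
    rw [hb]
    exact max_le hxy (min_le_left _ _)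
  have hba : b - a ≤ 2 * s := by
    have e1 : b ≤ a + 2 * s := by
      rw [hb]
      refine max_le (by linarith) ?_
      rcases le_total y (u0 - s) with h4 | h4
      · have e2 : y ≤ a := by
          rw [ha, min_eq_left h4]
          exact le_max_right _ _
        exact (min_le_left _ _).trans (by linarith)
      · have e2 : u0 - s ≤ a := by
          rw [ha, min_eq_right h4]
          exact le_max_right _ _
        exact (min_le_right _ _).trans (by linarith)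
    linarith
  have h1 : ‖ipj X t X' t' x a‖ * R ≤ C * (N / T0) := by
    rcases hxa.eq_or_lt with h4 | h4
    · rw [← h4]
      exact h0 x hx (hxy.trans hy)
    · refine h3 x a hx hxa ((hab.trans hby).trans hy) fun u hu => ?_
      have e1 : a ≤ u0 - s := by
        by_contra h5
        push Not at h5
        have h6 : a ≤ max x (u0 - s) := by
          rw [ha]
          exact max_le_max le_rfl (min_le_right _ _)
        have h7 : max x (u0 - s) < a := max_lt h4 h5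
        exact absurd h6 (not_le.2 h7)
      have e2 : u - u0 ≤ -s := by linarith [hu.2]
      have e3 := neg_le_abs (u - u0)
      linarith
  have h2 : ‖ipj X t X' t' b y‖ * R ≤ C * (N / T0) := by
    rcases hby.eq_or_lt with h4 | h4
    · rw [h4]
      exact h0 y (hx.trans hxy) hy
    · refine h3 b y (hx.trans (hxa.trans hab)) hby hy fun u hu => ?_
      have e1 : u0 + s ≤ b := by
        rw [hb]
        rcases le_total y (u0 + s) with h5 | h5
        · exfalso
          rw [min_eq_left h5, max_eq_right hxy] at hb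
          exact absurd h4 (by rw [hb]; exact lt_irrefl _)
        · rw [min_eq_right h5]
          exact le_max_right _ _
      have e2 : s ≤ u - u0 := by linarith [hu.1]
      exact e2.trans (le_abs_self _)
  have h5 : ‖ipj X t X' t' a b‖ * R ≤ 2 * C := by
    have h6 := QOS_one hX hX' t t' (hx.trans hxa) hab (hby.trans hy)
    have h7 : ‖ipj X t X' t' a b‖ ≤ 2 * C * s := by nlinarith
    have h8 := mul_le_mul_of_nonneg_right h7 hR0.le
    have h9 : 2 * C * s * R = 2 * C := by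
      rw [mul_assoc, mul_comm s R, hsR, mul_one]
    rw [h9] at h8
    exact h8
  have h6 : ipj X t X' t' x y = ipj X t X' t' x a + (ipj X t X' t' a b + ipj X t X' t' b y) := by
    rw [QOS_add hX hX' t t' hx hxa (hab.trans hby) hy, QOS_add hX hX' t t' (hx.trans hxa) hab hby hy]
  have h7 : ‖ipj X t X' t' x y‖ ≤ ‖ipj X t X' t' x a‖ + (‖ipj X t X' t' a b‖ + ‖ipj X t X' t' b y‖) := by
    rw [h6]
    exact (norm_add_le _ _).trans (add_le_add le_rfl (norm_add_le _ _))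
  have h8 := mul_le_mul_of_nonneg_right h7 hR0.le
  rw [← hRe]
  have h9 : C * 1 ≤ C * (N / T0) := mul_le_mul_of_nonneg_left hM (by linarith)
  nlinarith

theorem QOS_dsw (N X t X' t' : ℝ) : dR N X t X' t' = dR N X' t' X t := by
  unfold dR
  rw [abs_sub_comm X X', abs_sub_comm t t']

/-- **Row QOS** -/
theorem QOS_proof (hOSL : OSL_stmt) : QOS_stmt := by
  intro C1 hC1
  obtain ⟨C, hC, h⟩ := hOSL 4 (by norm_num)
  have hCC : 0 < C1 * C := by positivity
  refine ⟨4 * (14 + 41 * C1 * C), by nlinarith, ?_⟩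
  intro X X' t t' T0 N hX hX' hT0 hTN ht htC ht' htC'
  have hT : 0 < T0 := by linarith
  have hM1 : 1 ≤ N / T0 := (one_le_div hT).2 hTN
  have hK : 0 ≤ (14 + 41 * C1 * C) * (N / T0) := mul_nonneg (by nlinarith) (by linarith)
  have key : ∃ u0 : ℝ, ∀ x y : ℝ, -2 ≤ x → x ≤ y → y ≤ 2 → ∀ d : ℝ, 0 < d → (∀ u ∈ Icc x y, d ≤ |u - u0|) →
      ‖ipj X t X' t' x y‖ * (dR N X t X' t' * d) ≤ (14 + 41 * C1 * C) * (N / T0) := by
    rcases le_total t' t with h1 | h1
    · exact QOS_third hC1 hC h hX hX' hT0 hTN htC ht' h1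
    · obtain ⟨u0, h2⟩ := QOS_third hC1 hC h hX' hX hT0 hTN htC' ht h1
      refine ⟨u0, fun x y hx hxy hy d hd hu => ?_⟩
      rw [QOS_swap, QOS_dsw]
      exact h2 x y hx hxy hy d hd hu
  obtain ⟨u0, hu0⟩ := key
  refine ⟨u0, fun x y hx hxy hy => ⟨?_, ?_, ?_⟩⟩
  · refine (QOS_one hX hX' t t' hx hxy hy).trans (mul_le_mul_of_nonneg_right ?_ (by linarith))
    nlinarith
  · exact QOS_second hX hX' (by nlinarith) hM1 hx hxy hy hu0
  · intro d hd hu
    refine (hu0 x y hx hxy hy d hd hu).trans ?_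
    linarith

end

end Pool.Agent.LP
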