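import Pool.Agent.helper57.LQ.SpecA
import Pool.Agent.helper99.EP.JREC

/-!
# Project lq, row HRC: the Hecke relation
-/

set_option autoImplicit false

open Finset PowerSeries

noncomputable section

namespace Pool.Agent.LQ

open Pool.Agent.EP (JG)

/-- the coefficients as a function on the integers -/
def HRC_a (f : FF) (M : ℤ) : ZMod 2 := coeff M.toNat f

theorem HRC_one (f : FF) (j m : ℕ) (hj : 0 < j) : coeff m (T j f) = JG (HRC_a f) j (m : ℤ) := by
  rw [coeff_T]
  unfold JG
  refine Finset.sum_congr ?_ ?_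
  · ext d
    simp only [Finset.mem_filter, Nat.mem_divisors]
    constructor
    · rintro ⟨h1, -⟩
      refine ⟨⟨h1.trans (Nat.gcd_dvd_right _ _), hj.ne'⟩, ?_⟩
      exact_mod_cast h1.trans (Nat.gcd_dvd_left _ _)
    · rintro ⟨⟨h1, -⟩, h2⟩
      have h3 : d ∣ m := by exact_mod_cast h2
      exact ⟨Nat.dvd_gcd h3 h1, (Nat.gcd_pos_of_pos_right m hj).ne'⟩
  · intro d _
    unfold HRC_a
    have h1 : (j : ℤ) * (m : ℤ) / (d : ℤ) ^ 2 = ((m * j / d ^ 2 : ℕ) : ℤ) := by
      push_cast
      rw [mul_comm]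
    rw [h1, Int.toNat_natCast]

theorem HRC_two (h : FF) (l m : ℕ) (hl : l.Prime) :
    coeff m (T l h) = coeff (l * m) h + if l ∣ m then coeff (m / l) h else 0 := by
  rw [coeff_T]
  by_cases hd : l ∣ m
  · rw [if_pos hd, Nat.gcd_eq_right hd, hl.divisors, Finset.sum_pair hl.one_lt.ne]
    congr 1
    · rw [one_pow, Nat.div_one, mul_comm]
    · obtain ⟨k, rfl⟩ := hd
      have h1 : l * k * l / l ^ 2 = k := by
        have : l * k * l = l ^ 2 * k := by ring
        rw [this, Nat.mul_div_cancel_left _ (pow_pos hl.pos 2)]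
      rw [h1, Nat.mul_div_cancel_left _ hl.pos]
  · have h1 : Nat.gcd m l = 1 := by
      rw [Nat.gcd_comm]
      exact (Nat.Prime.coprime_iff_not_dvd hl).mpr hd
    rw [if_neg hd, h1, Nat.divisors_one, Finset.sum_singleton, one_pow, Nat.div_one, add_zero, mul_comm]

theorem HRC : HRC_stmt := by
  intro l j hl hj
  apply LinearMap.ext
  intro f
  ext m
  rw [Module.End.mul_apply, HRC_two _ l m hl, HRC_one f j _ hj, HRC_one f j _ hj, LinearMap.add_apply, map_add,
    HRC_one f (l * j) m (Nat.mul_pos hl.pos hj)]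
  have h1 := Pool.Agent.EP.JREC (HRC_a f) l j (m : ℤ) hl hj
  have h2 : (if l ∣ m then JG (HRC_a f) j ((m / l : ℕ) : ℤ) else 0) =
      if (l : ℤ) ∣ (m : ℤ) then JG (HRC_a f) j ((m : ℤ) / l) else 0 := by
    refine if_congr ?_ ?_ rfl
    · exact Int.natCast_dvd_natCast.symm
    · push_cast
      rfl
  have h3 : coeff m ((if l ∣ j then T (j / l) else 0 : Module.End (ZMod 2) FF) f) =
      if l ∣ j then JG (HRC_a f) (j / l) (m : ℤ) else 0 := by
    by_cases hd : l ∣ j
    · rw [if_pos hd, if_pos hd, HRC_one]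
      exact Nat.div_pos (Nat.le_of_dvd hj hd) hl.pos
    · rw [if_neg hd, if_neg hd]
      simp
  rw [h2, h3]
  push_cast
  exact h1

end Pool.Agent.LQ
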